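import Pool.Agent.H78.LCS.Final

/-!
# MP_464c58_al, Q2: every prime `p ≥ 5` is a torsion prime

For every prime `p ≥ 5` and every `n ≥ 2` there is `ℓ` with `3 ≤ ℓ ≤ p + 3` such that
`B_ℓ(A_n(ℤ)) = L_ℓ / L_{ℓ+1}` contains an element of order exactly `p`.
-/

namespace Pool.Agent.Results.MP_464c58_al.InfinitelyManyTorsionPrimes

open Pool.Agent.H78.LCS

/-- The lower central series of a ring `A` regarded as a Lie ring: `L_1 = A` and `L_{k+1}` is the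
additive subgroup spanned by all `[a, b] = ab - ba` with `a ∈ A`, `b ∈ L_k`
(`L_0 = A` is a dummy value). -/
def L (A : Type) [Ring A] : ℕ → AddSubgroup A
  | 0 => ⊤
  | 1 => ⊤
  | (k + 2) => AddSubgroup.closure {z | ∃ a : A, ∃ b ∈ L A (k + 1), z = a * b - b * a}

/-- `B_ℓ(A) = L_ℓ / L_{ℓ+1}`. -/
abbrev B (A : Type) [Ring A] (l : ℕ) : Type := L A l ⧸ (L A (l + 1)).addSubgroupOf (L A l)

/-- The free associative unital ring `A_n(ℤ)` on `n` generators. -/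
abbrev An (n : ℕ) : Type := FreeAlgebra ℤ (Fin n)

lemma L_succ (A : Type) [Ring A] (k : ℕ) : L A (k + 1) = C A k := by
  induction k with
  | zero => rfl
  | succ k ih =>
    show AddSubgroup.closure {z | ∃ a : A, ∃ b ∈ L A (k + 1), z = a * b - b * a} = _
    rw [ih]
    rfl

lemma L_anti (A : Type) [Ring A] (k : ℕ) : L A (k + 1 + 1) ≤ L A (k + 1) := by
  rw [L_succ, L_succ]
  exact C_succ_le k

theorem torsion (p : ℕ) (hp : p.Prime) (h5 : 5 ≤ p) (n : ℕ) (hn : 2 ≤ n) :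
    ∃ l : ℕ, 3 ≤ l ∧ l ≤ p + 3 ∧ ∃ b : B (An n) l, addOrderOf b = p := by
  obtain ⟨k, hk2, hkp, t, ht, ht', hpt⟩ := main p hp h5 n hn
  rw [← L_succ] at ht ht' hpt
  refine ⟨k + 1, by omega, by omega, QuotientAddGroup.mk ⟨t, ht⟩, ?_⟩
  have : Fact p.Prime := ⟨hp⟩
  apply addOrderOf_eq_prime
  · rw [← QuotientAddGroup.mk_nsmul, QuotientAddGroup.eq_zero_iff]
    exact hpt
  · intro h
    rw [QuotientAddGroup.eq_zero_iff] at h
    exact ht' h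

/-- For every prime `p ≥ 5` and every `n ≥ 2` some `B_ℓ(A_n(ℤ))` with `3 ≤ ℓ ≤ p + 3` has
`p`-torsion; in particular infinitely many primes occur as torsion in the `B_ℓ(A_n(ℤ))`,
`ℓ ≥ 3`, `n ≥ 2`. -/
theorem result :
    (∀ p : ℕ, p.Prime → 5 ≤ p → ∀ n : ℕ, 2 ≤ n →
      ∃ l : ℕ, 3 ≤ l ∧ l ≤ p + 3 ∧ ∃ b : B (An n) l, addOrderOf b = p) ∧
    {p : ℕ | p.Prime ∧ ∃ l : ℕ, 3 ≤ l ∧ ∃ n : ℕ, 2 ≤ n ∧
      ∃ b : B (An n) l, addOrderOf b = p}.Infinite := by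
  refine ⟨torsion, ?_⟩
  rw [Set.infinite_iff_exists_gt]
  intro N
  obtain ⟨p, hpN, hp⟩ := Nat.exists_infinite_primes (N + 5)
  obtain ⟨l, h3, _, b, hb⟩ := torsion p hp (by omega) 2 le_rfl
  exact ⟨p, ⟨hp, l, h3, 2, le_rfl, b, hb⟩, by omega⟩

end Pool.Agent.Results.MP_464c58_al.InfinitelyManyTorsionPrimes
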